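import Pool.Agent.Helper84_TMP.Stmt

/-!
# Exact temperedness, module CTU: the number of points of `U(𝒪) t^(-l) o`
-/

open scoped BigOperators

namespace Pool.Agent.TMP.H27

open Pool.Agent.DEN Pool.Agent.TMP

section orb
variable {G X : Type} [Group G] [MulAction G X]

theorem orbset_eq (V : Subgroup G) (p : X) :
    {y : X | ∃ u ∈ V, y = u • p} = MulAction.orbit V p := by
  ext y
  constructor
  · rintro ⟨u, hu, rfl⟩
    exact ⟨⟨u, hu⟩, rfl⟩
  · rintro ⟨⟨u, hu⟩, rfl⟩
    exact ⟨u, hu, rfl⟩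

theorem ncard_orb (V : Subgroup G) (p : X) :
    {y : X | ∃ u ∈ V, y = u • p}.ncard = (MulAction.stabilizer G p).relIndex V := by
  rw [orbset_eq, ← MulAction.index_stabilizer, Subgroup.relIndex]
  have h : MulAction.stabilizer V p = (MulAction.stabilizer G p).subgroupOf V := by
    ext u
    rw [Subgroup.mem_subgroupOf, MulAction.mem_stabilizer_iff, MulAction.mem_stabilizer_iff]
    exact Iff.rfl
  rw [h]

theorem ncard_step (V W : Subgroup G) (p : X) (hWV : W ≤ V)
    (hst : ∀ u ∈ V, u • p = p → u ∈ W) :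
    {y : X | ∃ u ∈ V, y = u • p}.ncard =
      {y : X | ∃ u ∈ W, y = u • p}.ncard * W.relIndex V := by
  rw [ncard_orb, ncard_orb]
  have h1 : MulAction.stabilizer G p ⊓ V ≤ W := fun u hu => hst u hu.2 hu.1
  have h2 := Subgroup.relIndex_mul_relIndex (MulAction.stabilizer G p ⊓ V) W V h1 hWV
  rw [Subgroup.inf_relIndex_right] at h2
  rw [← h2]
  have h3 : (MulAction.stabilizer G p ⊓ V).relIndex W = (MulAction.stabilizer G p).relIndex W := by
    rw [← Subgroup.inf_relIndex_right, inf_assoc, inf_eq_right.mpr hWV,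
      Subgroup.inf_relIndex_right]
  rw [h3]

theorem relIndex_of (V W : Subgroup G) {A : Type} [Group A] (ψ : V →* A)
    (h : ψ.ker = W.subgroupOf V) : W.relIndex V = Nat.card ψ.range := by
  rw [Subgroup.relIndex, ← h, Subgroup.index_ker]

theorem finsum_one {Y : Type} {S : Set Y} (hS : S.Finite) :
    ∑ᶠ _y ∈ S, (1 : ℂ) = (S.ncard : ℂ) := by
  rw [finsum_mem_eq_finite_toFinset_sum _ hS, Finset.sum_const, nsmul_eq_mul, mul_one,
    Set.ncard_eq_toFinset_card S hS]

end orb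

/-- The additive group `Bd n`. -/
def BB (K : Type) [Field K] (n : ℤ) : AddSubgroup (FF K) where
  carrier := Bd K n
  zero_mem' := (H22.hF1 K).1 n
  add_mem' := fun {a b} ha hb => (H22.hF1 K).2.1 n a b ha hb
  neg_mem' := fun {a} ha => (H22.hF1 K).2.2.1 n a ha

theorem mem_BB {K : Type} [Field K] (n : ℤ) (a : FF K) : a ∈ BB K n ↔ a ∈ Bd K n := Iff.rfl

section
variable {r : ℕ} {C : Matrix (Fin r) (Fin r) ℤ} {K : Type} [Field K]

/-- The properties of the coordinates. -/
structure IsCo (hC : SimplyLaced C) (co : grp C K → Rt C → FF K) : Prop where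
  add : ∀ (h : ℕ) (u v : grp C K) (β : Rt C), 1 ≤ h → u ∈ UH hC K h → v ∈ UH hC K h →
    ht β = h → co (u * v) β = co u β + co v β
  self : ∀ (β : Rt C) (a : FF K), β.Pos → co (xg hC β a) β = a
  other : ∀ (β γ : Rt C) (a : FF K), β.Pos → ht γ = ht β → γ ≠ β → co (xg hC γ a) β = 0
  next : ∀ (h : ℕ) (u : grp C K) (β : Rt C), 1 ≤ h → u ∈ UH hC K (h + 1) → ht β = h →
    co u β = 0
  mem : ∀ (h : ℕ) (u : grp C K), 1 ≤ h → u ∈ UH hC K h → (∀ β : Rt C, ht β = h → co u β = 0) →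
    u ∈ UH hC K (h + 1)
  fix : ∀ (h : ℕ) (u : grp C K) (β : Rt C) (l : Fin r → ℤ), 1 ≤ h → u ∈ UH hC K h → ht β = h →
    u • tp hC K l = tp hC K l → co u β ∈ Bd K (ip C β.1 l)

variable {hC : SimplyLaced C} {co : grp C K → Rt C → FF K}

theorem IsCo.one (hco : IsCo hC co) (β : Rt C) (h : ℕ) (hh : 1 ≤ h) (hβ : ht β = h) :
    co 1 β = 0 := by
  have h1 := hco.add h 1 1 β hh (one_mem _) (one_mem _) hβ
  rw [mul_one] at h1
  have h2 : co 1 β + 0 = co 1 β + co 1 β := by rw [add_zero]; exact h1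
  exact (add_left_cancel h2).symm

theorem IsCo.inv (hco : IsCo hC co) (β : Rt C) (h : ℕ) (hh : 1 ≤ h) (hβ : ht β = h)
    {u : grp C K} (hu : u ∈ UH hC K h) : co u⁻¹ β = - co u β := by
  have h1 := hco.add h u⁻¹ u β hh (inv_mem hu) hu hβ
  rw [inv_mul_cancel, hco.one β h hh hβ] at h1
  exact eq_neg_of_add_eq_zero_left h1.symm

/-- The subgroup of the integral elements of `U^{(h)}` with coordinates in given groups. -/
def VV (hco : IsCo hC co) (h : ℕ) (hh : 1 ≤ h) (S : Rt C → AddSubgroup (FF K)) :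
    Subgroup (grp C K) where
  carrier := {u | u ∈ UO hC K ∧ u ∈ UH hC K h ∧ ∀ β : Rt C, ht β = h → co u β ∈ S β}
  one_mem' := ⟨one_mem _, one_mem _, fun β hβ => by
    rw [hco.one β h hh hβ]; exact zero_mem _⟩
  mul_mem' := by
    rintro u v ⟨hu, hu1, hu2⟩ ⟨hv, hv1, hv2⟩
    refine ⟨mul_mem hu hv, mul_mem hu1 hv1, fun β hβ => ?_⟩
    rw [hco.add h u v β hh hu1 hv1 hβ]
    exact add_mem (hu2 β hβ) (hv2 β hβ)
  inv_mem' := by
    rintro u ⟨hu, hu1, hu2⟩
    refine ⟨inv_mem hu, inv_mem hu1, fun β hβ => ?_⟩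
    rw [hco.inv β h hh hβ hu1]
    exact neg_mem (hu2 β hβ)

theorem mem_VV (hco : IsCo hC co) (h : ℕ) (hh : 1 ≤ h) (S : Rt C → AddSubgroup (FF K))
    (u : grp C K) : u ∈ VV hco h hh S ↔
      u ∈ UO hC K ∧ u ∈ UH hC K h ∧ ∀ β : Rt C, ht β = h → co u β ∈ S β := Iff.rfl

theorem UO_oo (hC : SimplyLaced C) {u : grp C K} (hu : u ∈ UO hC K) : u • oo C K = oo C K := by
  have h : UO hC K ≤ MulAction.stabilizer (grp C K) (oo C K) := by
    refine (Subgroup.closure_le _).mpr ?_
    rintro g ⟨β, a, -, ha, rfl⟩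
    exact xg_oo hC β ha
  exact h hu

theorem UO_le_UH (hC : SimplyLaced C) : UO hC K ≤ UH hC K 1 := by
  refine Subgroup.closure_mono ?_
  rintro g ⟨β, a, hβ, -, rfl⟩
  exact ⟨β, a, by exact_mod_cast (pos_iff hC β).mp hβ, rfl⟩

theorem xg_UH (hC : SimplyLaced C) (β : Rt C) (h : ℕ) (hβ : (h : ℤ) ≤ ht β) (a : FF K) :
    xg hC β a ∈ UH hC K h := Subgroup.subset_closure ⟨β, a, hβ, rfl⟩

theorem xg_UO (hC : SimplyLaced C) {β : Rt C} (hβ : β.Pos) {a : FF K} (ha : a ∈ Bd K 0) :
    xg hC β a ∈ UO hC K := Subgroup.subset_closure ⟨β, a, hβ, ha, rfl⟩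

/-- The step: one root. -/
theorem step [Finite K] (hCls : ClsStmt) (hco : IsCo hC co) (h : ℕ) (hh : 1 ≤ h)
    (S S' : Rt C → AddSubgroup (FF K)) (β : Rt C) (hβ : ht β = h)
    (hS1 : S β = ⊤) (hS2 : S' β = ⊥) (hS3 : ∀ γ, γ ≠ β → S' γ = S γ)
    (l : Fin r → ℤ) (hl : 0 ≤ ip C β.1 l) :
    ({y : XX C K | ∃ u ∈ VV hco h hh S, y = u • tp hC K (-l)}.ncard : ℂ) =
      (Nat.card K : ℂ) ^ (ip C β.1 l) *
      ({y : XX C K | ∃ u ∈ VV hco h hh S', y = u • tp hC K (-l)}.ncard : ℂ) := by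
  classical
  have hpos : β.Pos := (pos_iff hC β).mpr (by omega)
  have hF := H22.hF1 K
  set n : ℤ := - ip C β.1 l with hn
  have hn0 : n ≤ 0 := by omega
  have hip : ip C β.1 (-l) = n := by rw [ip_neg_right]
  -- the intermediate group
  set T : Rt C → AddSubgroup (FF K) := fun γ => if γ = β then BB K n else S γ with hT
  have hTβ : T β = BB K n := if_pos rfl
  have hTγ : ∀ γ, γ ≠ β → T γ = S γ := fun γ hγ => if_neg hγ
  have hWV : VV hco h hh T ≤ VV hco h hh S := by
    rintro u ⟨h1, h2, h3⟩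
    refine ⟨h1, h2, fun γ hγ => ?_⟩
    by_cases hc : γ = β
    · rw [hc, hS1]; trivial
    · rw [← hTγ γ hc]; exact h3 γ hγ
  have hst : ∀ u ∈ VV hco h hh S, u • tp hC K (-l) = tp hC K (-l) → u ∈ VV hco h hh T := by
    rintro u ⟨h1, h2, h3⟩ h4
    refine ⟨h1, h2, fun γ hγ => ?_⟩
    by_cases hc : γ = β
    · rw [hc, hTβ, mem_BB, ← hip]
      exact hco.fix h u β (-l) hh h2 hβ h4
    · rw [hTγ γ hc]; exact h3 γ hγ
  -- the orbits of the intermediate group
  have horb : {y : XX C K | ∃ u ∈ VV hco h hh T, y = u • tp hC K (-l)} =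
      {y : XX C K | ∃ u ∈ VV hco h hh S', y = u • tp hC K (-l)} := by
    ext y
    constructor
    · rintro ⟨u, ⟨h1, h2, h3⟩, rfl⟩
      have hb : co u β ∈ Bd K n := by
        have := h3 β hβ
        rwa [hTβ] at this
      have hb' : - co u β ∈ Bd K n := hF.2.2.1 _ _ hb
      have hx : xg hC β (- co u β) ∈ UH hC K h := xg_UH hC β h (by omega) _
      refine ⟨u * xg hC β (- co u β), ⟨mul_mem h1 (xg_UO hC hpos (hF.2.2.2.2.1 _ _ _ hn0 hb')),
        mul_mem h2 hx, fun γ hγ => ?_⟩, ?_⟩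
      · rw [hco.add h _ _ γ hh h2 hx hγ]
        by_cases hc : γ = β
        · rw [hc, hco.self β _ hpos, add_neg_cancel]; exact zero_mem _
        · have hγp : γ.Pos := (pos_iff hC γ).mpr (by omega)
          rw [hco.other γ β _ hγp (by omega) (Ne.symm hc), add_zero, hS3 γ hc, ← hTγ γ hc]
          exact h3 γ hγ
      · rw [mul_smul, xg_tp hC (-l) β (by rw [hip]; exact hb')]
    · rintro ⟨u, ⟨h1, h2, h3⟩, rfl⟩
      refine ⟨u, ⟨h1, h2, fun γ hγ => ?_⟩, rfl⟩
      by_cases hc : γ = β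
      · have h4 := h3 β hβ
        rw [hS2, AddSubgroup.mem_bot] at h4
        rw [hc, h4]; exact zero_mem _
      · rw [hTγ γ hc, ← hS3 γ hc]; exact h3 γ hγ
  -- the index
  let P : FF K → Multiplicative (FF K ⧸ BB K n) := fun b =>
    Multiplicative.ofAdd (QuotientAddGroup.mk b)
  have hP : ∀ b b', P b = P b' ↔ b - b' ∈ Bd K n := by
    intro b b'
    have h1 : P b = P b' ↔ (QuotientAddGroup.mk b : FF K ⧸ BB K n) = QuotientAddGroup.mk b' :=
      Multiplicative.ofAdd.injective.eq_iff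
    rw [h1, QuotientAddGroup.eq, mem_BB]
    constructor
    · intro h2
      have h3 := hF.2.2.1 _ _ h2
      rwa [neg_add, neg_neg, ← sub_eq_add_neg] at h3
    · intro h2
      have h3 := hF.2.2.1 _ _ h2
      rwa [neg_sub, sub_eq_add_neg, add_comm] at h3
  obtain ⟨hfin, hsum⟩ := hCls K (Multiplicative (FF K ⧸ BB K n)) n 0 0 hn0 le_rfl P hP
    (fun _ => 1) (fun _ => 1) (fun _ _ => rfl) (fun _ _ _ _ _ _ => rfl)
  rw [finsum_one hfin] at hsum
  simp only [Finset.Ioc_self, Finset.sum_empty, add_zero, mul_one, zero_sub] at hsum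
  have hneg : -n = ip C β.1 l := by omega
  rw [hneg] at hsum
  let ψ : VV hco h hh S →* Multiplicative (FF K ⧸ BB K n) :=
    { toFun := fun u => P (co u.1 β)
      map_one' := by
        show P (co 1 β) = 1
        rw [hco.one β h hh hβ]
        rfl
      map_mul' := by
        rintro ⟨u, hu⟩ ⟨v, hv⟩
        show P (co (u * v) β) = P (co u β) * P (co v β)
        rw [hco.add h u v β hh hu.2.1 hv.2.1 hβ]
        rfl }
  have hψ : ∀ u : VV hco h hh S, ψ u = P (co u.1 β) := fun _ => rfl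
  have hker : ψ.ker = (VV hco h hh T).subgroupOf (VV hco h hh S) := by
    ext u
    have h1 : (1 : Multiplicative (FF K ⧸ BB K n)) = P 0 := rfl
    rw [MonoidHom.mem_ker, hψ, h1, hP, sub_zero, Subgroup.mem_subgroupOf]
    constructor
    · intro h2
      refine ⟨u.2.1, u.2.2.1, fun γ hγ => ?_⟩
      by_cases hc : γ = β
      · rw [hc, hTβ]; exact h2
      · rw [hTγ γ hc]; exact u.2.2.2 γ hγ
    · rintro ⟨-, -, h2⟩
      have h3 := h2 β hβ
      rwa [hTβ] at h3
  have hran : (ψ.range : Set (Multiplicative (FF K ⧸ BB K n))) = P '' Bd K 0 := by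
    ext y
    constructor
    · rintro ⟨u, rfl⟩
      refine ⟨co u.1 β, ?_, rfl⟩
      have h1 := hco.fix h u.1 β 0 hh u.2.2.1 hβ (by rw [tp_zero hC]; exact UO_oo hC u.2.1)
      rwa [ip_zero_right] at h1
    · rintro ⟨a, ha, rfl⟩
      refine ⟨⟨xg hC β a, xg_UO hC hpos ha, xg_UH hC β h (by omega) a, fun γ hγ => ?_⟩, ?_⟩
      · by_cases hc : γ = β
        · rw [hc, hS1]; trivial
        · have hγp : γ.Pos := (pos_iff hC γ).mpr (by omega)
          rw [hco.other γ β _ hγp (by omega) (Ne.symm hc)]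
          exact zero_mem _
      · rw [hψ]
        show P (co (xg hC β a) β) = P a
        rw [hco.self β a hpos]
  have hidx : ((VV hco h hh T).relIndex (VV hco h hh S) : ℂ) =
      (Nat.card K : ℂ) ^ (ip C β.1 l) := by
    rw [relIndex_of _ _ ψ hker, ← hsum, ← hran]
    rfl
  rw [ncard_step _ _ _ hWV hst, horb]
  push_cast
  rw [hidx, mul_comm]

open Classical in
/-- All the roots of one height. -/
theorem level [Finite K] (hCls : ClsStmt) (hco : IsCo hC co) (h : ℕ) (hh : 1 ≤ h)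
    (l : Fin r → ℤ) (hl : IsDom C l) (R : Finset (Rt C)) : (∀ β ∈ R, ht β = h) →
    ({y : XX C K | ∃ u ∈ VV hco h hh (fun _ => ⊤), y = u • tp hC K (-l)}.ncard : ℂ) =
      (Nat.card K : ℂ) ^ (∑ β ∈ R, ip C β.1 l) *
      ({y : XX C K | ∃ u ∈ VV hco h hh (fun β => if β ∈ R then ⊥ else ⊤),
        y = u • tp hC K (-l)}.ncard : ℂ) := by
  have hq : (Nat.card K : ℂ) ≠ 0 := by
    exact_mod_cast Nat.card_pos.ne'
  refine Finset.induction_on R ?_ ?_
  · intro _
    simp
  · intro β R hβR ih hR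
    have h1 := ih fun γ hγ => hR γ (Finset.mem_insert_of_mem hγ)
    have hβ := hR β (Finset.mem_insert_self _ _)
    have hpos : β.Pos := (pos_iff hC β).mpr (by omega)
    have hl' : 0 ≤ ip C β.1 l := by
      have h2 := (H22.hRS r C hC).2.2.2 β.1 l hl hpos
      by_contra hc
      have h3 : ∀ i, 0 ≤ β.1 i * ip C (al i) l := fun i => mul_nonneg (hpos i) (hl i)
      rcases Nat.eq_zero_or_pos r with h0 | h0
      · subst h0
        apply hc
        have : β.1 = 0 := Subsingleton.elim _ _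
        rw [this, ip_zero_left]
      · have h4 := h3 ⟨0, h0⟩
        have h5 := h2 ⟨0, h0⟩
        omega
    rw [h1, Finset.sum_insert hβR, step hCls hco h hh (fun γ => if γ ∈ R then ⊥ else ⊤)
      (fun γ => if γ ∈ insert β R then ⊥ else ⊤) β hβ (if_neg hβR)
      (if_pos (Finset.mem_insert_self _ _)) ?_ l hl', ← mul_assoc, ← zpow_add₀ hq,
      add_comm (ip C β.1 l)]
    intro γ hγ
    simp only [Finset.mem_insert, hγ, false_or]

open Classical in
/-- Heights less than `h`. -/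
theorem upto [Finite K] (hCls : ClsStmt) (hco : IsCo hC co) [Fintype (Rt C)]
    (l : Fin r → ℤ) (hl : IsDom C l) (h : ℕ) : ∀ hh : 1 ≤ h,
    ({y : XX C K | ∃ u ∈ UO hC K, y = u • tp hC K (-l)}.ncard : ℂ) =
      (Nat.card K : ℂ) ^ (∑ β ∈ Finset.univ.filter (fun β : Rt C => 1 ≤ ht β ∧ ht β < h),
        ip C β.1 l) *
      ({y : XX C K | ∃ u ∈ VV hco h hh (fun _ => ⊤), y = u • tp hC K (-l)}.ncard : ℂ) := by
  have hq : (Nat.card K : ℂ) ≠ 0 := by
    exact_mod_cast Nat.card_pos.ne'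
  induction h with
  | zero => intro hh; omega
  | succ h ih =>
    intro hh
    rcases Nat.eq_zero_or_pos h with h0 | h0
    · subst h0
      have h1 : (Finset.univ.filter (fun β : Rt C => 1 ≤ ht β ∧ ht β < ((0 + 1 : ℕ) : ℤ))) = ∅ := by
        refine Finset.filter_eq_empty_iff.mpr ?_
        intro β _ h2
        push_cast at h2
        omega
      have h2 : VV hco (0 + 1) hh (fun _ => ⊤) = UO hC K := by
        ext u
        rw [mem_VV]
        constructor
        · intro h3; exact h3.1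
        · intro h3; exact ⟨h3, UO_le_UH hC h3, fun _ _ => trivial⟩
      rw [h1, Finset.sum_empty, zpow_zero, one_mul, h2]
    · have h1 := ih h0
      have h2 := level hCls hco h h0 l hl (Finset.univ.filter (fun β : Rt C => ht β = h))
        (fun β hβ => (Finset.mem_filter.mp hβ).2)
      have h3 : VV hco h h0 (fun β => if β ∈ Finset.univ.filter (fun β : Rt C => ht β = h)
          then ⊥ else ⊤) = VV hco (h + 1) hh (fun _ => ⊤) := by
        ext u
        rw [mem_VV, mem_VV]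
        constructor
        · rintro ⟨h4, h5, h6⟩
          refine ⟨h4, hco.mem h u h0 h5 fun β hβ => ?_, fun _ _ => trivial⟩
          have h7 := h6 β hβ
          have h8 : β ∈ Finset.univ.filter (fun β : Rt C => ht β = h) :=
            Finset.mem_filter.mpr ⟨Finset.mem_univ _, hβ⟩
          rw [if_pos h8] at h7
          exact h7
        · rintro ⟨h4, h5, -⟩
          refine ⟨h4, UH_mono hC (Nat.le_succ h) h5, fun β hβ => ?_⟩
          rw [hco.next h u β h0 h5 hβ]
          exact zero_mem _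
      have h4 : Finset.univ.filter (fun β : Rt C => 1 ≤ ht β ∧ ht β < ((h + 1 : ℕ) : ℤ)) =
          Finset.univ.filter (fun β : Rt C => 1 ≤ ht β ∧ ht β < h) ∪
            Finset.univ.filter (fun β : Rt C => ht β = h) := by
        ext β
        simp only [Finset.mem_filter, Finset.mem_union, Finset.mem_univ, true_and]
        push_cast
        omega
      have h5 : Disjoint (Finset.univ.filter (fun β : Rt C => 1 ≤ ht β ∧ ht β < h))
          (Finset.univ.filter (fun β : Rt C => ht β = h)) := by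
        rw [Finset.disjoint_left]
        intro β h6 h7
        have h8 := (Finset.mem_filter.mp h6).2.2
        have h9 := (Finset.mem_filter.mp h7).2
        omega
      rw [h1, h2, h3, h4, Finset.sum_union h5, ← mul_assoc, ← zpow_add₀ hq]

theorem ip_sum_right (x : Fin r → ℤ) (l : Fin r → ℤ) :
    ip C x l = ∑ i, l i * ip C x (al i) := by
  have h1 : ∀ s : Finset (Fin r), ip C x (∑ i ∈ s, l i • al i) = ∑ i ∈ s, l i * ip C x (al i) := by
    intro s
    classical
    refine Finset.induction_on s ?_ ?_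
    · simp [ip_zero_right]
    · intro i s hi ih
      rw [Finset.sum_insert hi, Finset.sum_insert hi, ip_add_right, ip_smul_right, ih]
  rw [← h1]
  congr 1
  ext j
  rw [Finset.sum_apply]
  simp [al, Pi.single_apply]

theorem sum_pos (hC : SimplyLaced C) [Fintype (Rt C)] (l : Fin r → ℤ) (s : Finset (Rt C))
    (hs : ∀ β, β ∈ s ↔ β.Pos) : ∑ β ∈ s, ip C β.1 l = 2 * hv l := by
  classical
  have h1 : ∀ i, ∑ β ∈ s, ip C β.1 (al i) = 2 := by
    intro i
    have h2 := (H22.hRD r C hC).2.2 i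
    rw [finsum_eq_sum_of_fintype] at h2
    exact (Finset.sum_subtype s hs (fun β => ip C β.1 (al i))).trans h2
  have h3 : ∀ β : Rt C, ip C β.1 l = ∑ i, l i * ip C β.1 (al i) := fun β => ip_sum_right β.1 l
  simp only [h3]
  rw [Finset.sum_comm]
  simp only [← Finset.mul_sum, h1]
  unfold hv
  rw [← Finset.sum_mul, mul_comm]

end

/-- CTU. -/
theorem ctu (hCoo : CooStmt) (hCls : ClsStmt) : CtuStmt := by
  classical
  intro r C hC K _ _ l hl
  obtain ⟨co, h1, h2, h3, h4, h5, h6, H, hH⟩ := hCoo r C hC K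
  have hco : IsCo hC co := ⟨h1, h2, h3, h4, h5, h6⟩
  have hfin := H22.hRF r C hC
  let _ : Fintype (Rt C) := Fintype.ofFinite _
  have hq : (Nat.card K : ℂ) ≠ 0 := by
    exact_mod_cast Nat.card_pos.ne'
  -- a large height
  obtain ⟨N, hN⟩ : ∃ N : ℕ, ∀ β : Rt C, ht β < N := by
    refine ⟨(∑ β : Rt C, (ht β).natAbs) + 1, fun β => ?_⟩
    have h7 : (ht β).natAbs ≤ ∑ β : Rt C, (ht β).natAbs :=
      Finset.single_le_sum (f := fun β : Rt C => (ht β).natAbs) (fun _ _ => Nat.zero_le _)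
        (Finset.mem_univ β)
    omega
  have hh : 1 ≤ H + N + 1 := by omega
  have h7 := upto hCls hco l hl (H + N + 1) hh
  have h8 : VV hco (H + N + 1) hh (fun _ => ⊤) = ⊥ := by
    rw [eq_bot_iff]
    rintro u ⟨-, h9, -⟩
    rwa [hH (H + N + 1) (by omega)] at h9
  have h9 : {y : XX C K | ∃ u ∈ VV hco (H + N + 1) hh (fun _ => ⊤), y = u • tp hC K (-l)} =
      {tp hC K (-l)} := by
    rw [h8]
    ext y
    constructor
    · rintro ⟨u, hu, rfl⟩
      rw [Subgroup.mem_bot.mp hu, one_smul]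
      rfl
    · intro hy
      exact ⟨1, one_mem _, by rw [one_smul]; exact hy⟩
  have h10 : ∑ β ∈ Finset.univ.filter (fun β : Rt C => 1 ≤ ht β ∧ ht β < ((H + N + 1 : ℕ) : ℤ)),
      ip C β.1 l = 2 * hv l := by
    refine sum_pos hC l _ fun β => ?_
    rw [Finset.mem_filter, pos_iff hC]
    constructor
    · rintro ⟨-, h11, -⟩; exact h11
    · intro h11
      have h12 := hN β
      exact ⟨Finset.mem_univ _, h11, by push_cast; omega⟩
  rw [h9, h10, Set.ncard_singleton, Nat.cast_one, mul_one] at h7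
  have h11 : {y : XX C K | ∃ u ∈ UO hC K, y = u • tp hC K (-l)}.ncard ≠ 0 := by
    intro h12
    rw [h12, Nat.cast_zero] at h7
    exact zpow_ne_zero _ hq h7.symm
  refine ⟨Set.finite_of_ncard_ne_zero h11, ?_⟩
  rw [Nat.card_coe_set_eq]
  exact h7

end Pool.Agent.TMP.H27
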