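import Pool.Agent.Helper2_TMP.StG

/-!
# Squad TMP, module FINF: the count at a finite place
-/

open scoped BigOperators

namespace Pool.Agent.DEN.TMP.H27

open Pool.Agent.DEN Pool.Agent.DEN.TMP

theorem hk_of_heckeInf {r : ℕ} {C : Matrix (Fin r) (Fin r) ℤ} {K : Type} [Field K]
    {κ : grp C K → ℂ} {R : ℕ} (h : HeckeInf κ R) : Hk (maxK C K) κ := ⟨h.1, h.2.1⟩

/-- FINF -/
theorem finf (hTrp : TrpStmt) (hChf : ChfStmt) (hTrc : TrcStmt) (hLoc : LocfStmt) (hMvf : MvfStmt)
    (hTrv : TrvStmt) : FinfStmt := by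
  intro r C hC hr
  obtain ⟨c, hc, hloc⟩ := hLoc r C hC
  refine ⟨12 * 3 ^ r * c ^ 2, ?_⟩
  intro K _ _ N hN n f hcusp horth P hP hPN heig hnt
  have hc1 : (1 : ℝ) ≤ c := by exact_mod_cast hc
  have hd : 0 < P.natDegree := hP.natDegree_pos
  have hd1 : (1 : ℝ) ≤ (P.natDegree : ℝ) := by exact_mod_cast hd
  set I : ℝ := ((cong C K 1 N).relIndex (arith C K 1) : ℝ) with hI
  have hI0 : 0 ≤ I := Nat.cast_nonneg _
  have h3 : (0 : ℝ) < 3 ^ r := by positivity
  push_cast
  by_cases hD : N.natDegree < 4 * c * P.natDegree + 4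
  · -- the trivial bound
    rcases Nat.eq_zero_or_pos N.natDegree with h0 | h0
    · rw [h0]
      push_cast
      have : (0 : ℝ) ≤ 12 * 3 ^ r * (c : ℝ) ^ 2 * P.natDegree * I := by positivity
      linarith
    · have h1 := hTrv r C hC K hr N h0 n f hcusp horth
      have h2 : (N.natDegree : ℝ) ≤ 8 * c * P.natDegree := by
        have h4 : N.natDegree ≤ 4 * c * P.natDegree + 4 := hD.le
        have h5 : 1 ≤ c * P.natDegree := Nat.mul_pos hc hd
        have h6 : N.natDegree ≤ 8 * c * P.natDegree := by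
          calc N.natDegree ≤ 4 * c * P.natDegree + 4 := h4
            _ ≤ 4 * c * P.natDegree + 4 * (c * P.natDegree) := by omega
            _ = 8 * c * P.natDegree := by ring
        exact_mod_cast h6
      calc (n * N.natDegree : ℝ) ≤ (3 ^ r * I) * (8 * c * P.natDegree) :=
            mul_le_mul h1 h2 (Nat.cast_nonneg _) (by positivity)
        _ ≤ 12 * 3 ^ r * (c : ℝ) ^ 2 * P.natDegree * I := by
            have h7 : (8 : ℝ) * c ≤ 12 * c ^ 2 := by nlinarith
            have h8 : 0 ≤ 3 ^ r * I * (P.natDegree : ℝ) := by positivity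
            have h9 := mul_le_mul_of_nonneg_left h7 h8
            linarith
  · push Not at hD
    -- the radius
    set m : ℕ := (N.natDegree - 4) / (4 * c * P.natDegree) with hm
    have hcd : 0 < 4 * c * P.natDegree := by positivity
    have hm1 : 1 ≤ m := by
      rw [hm, Nat.one_le_div_iff hcd]
      omega
    have hm2 : m * (4 * c * P.natDegree) ≤ N.natDegree - 4 := Nat.div_mul_le_self _ _
    have hm3 : N.natDegree - 4 < (4 * c * P.natDegree) * (m + 1) := by
      rw [hm]
      exact Nat.lt_mul_div_succ _ hcd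
    have hND : (N.natDegree : ℝ) ≤ 12 * c * P.natDegree * m := by
      have h4 : N.natDegree ≤ (4 * c * P.natDegree) * (m + 1) + 4 := by omega
      have h5 : 1 ≤ c * P.natDegree := Nat.mul_pos hc hd
      have h6 : N.natDegree ≤ 12 * c * P.natDegree * m := by
        calc N.natDegree ≤ (4 * c * P.natDegree) * (m + 1) + 4 := h4
          _ ≤ (4 * c * P.natDegree) * (2 * m) + 4 * (c * P.natDegree) * m := by
              have h7 : 4 ≤ 4 * (c * P.natDegree) * m := by
                have := Nat.mul_pos h5 hm1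
                nlinarith
              have h8 : (4 * c * P.natDegree) * (m + 1) ≤ (4 * c * P.natDegree) * (2 * m) :=
                Nat.mul_le_mul_left _ (by omega)
              omega
          _ = 12 * c * P.natDegree * m := by ring
      exact_mod_cast h6
    rcases Nat.eq_zero_or_pos n with hn0 | hn0
    · rw [hn0]
      push_cast
      have : (0 : ℝ) ≤ 12 * 3 ^ r * (c : ℝ) ^ 2 * P.natDegree * I := by positivity
      linarith
    obtain ⟨K₂, _, _, φ, -, hφ1, hφ2, hφ3, hφ4⟩ := hTrp r C hC K P hP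
    obtain ⟨M, κ, hκ, hsum, hdet⟩ := hloc K₂ m hm1
    have htrc := hTrc (grp C K₂) (arith C K P) (maxK C K₂)
      ((arith C K 1).subgroupOf (arith C K P)) φ hφ1 hφ2
    have hone : ∀ j, petersson N (f j) (f j) = 1 := by
      intro j
      rw [horth j j, if_pos rfl]
    have hchar := fun j => hChf r C hC K N hN P hP hPN (f j) (hcusp j) (hone j) (heig j) K₂ φ hφ1
      hφ2 hφ3 hφ4
    choose lam hl1 hl2 hl3 hl4 using hchar
    have hdetj : ∀ j, ∃ i, 1 ≤ ‖lam j (κ i)‖ := by
      intro j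
      exact hdet (lam j) (hl1 j) (hl2 j) (fun h => hnt j (hl4 j h))
    -- the count
    have hcount : (n : ℝ) ≤ ∑ j : Fin n, ∑ i : Fin M, ‖lam j (κ i)‖ ^ 2 := by
      have h1 : ∀ j : Fin n, (1 : ℝ) ≤ ∑ i : Fin M, ‖lam j (κ i)‖ ^ 2 := by
        intro j
        obtain ⟨i, hi⟩ := hdetj j
        have h2 : (1 : ℝ) ≤ ‖lam j (κ i)‖ ^ 2 := by nlinarith
        exact h2.trans (Finset.single_le_sum (f := fun i => ‖lam j (κ i)‖ ^ 2)
          (fun _ _ => by positivity) (Finset.mem_univ i))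
      calc (n : ℝ) = ∑ _j : Fin n, (1 : ℝ) := by simp
        _ ≤ _ := Finset.sum_le_sum (fun j _ => h1 j)
    have hmv : ∀ i : Fin M, ∑ j : Fin n, ‖lam j (κ i)‖ ^ 2 ≤
        3 ^ r * I * normSq (maxK C K₂) (κ i) := by
      intro i
      have hhk := hk_of_heckeInf (hκ i)
      rw [← htrc.2.2.2.2.2.1 (κ i) hhk]
      have hR : 4 * (c * m * P.natDegree) + 4 ≤ N.natDegree := by
        have h4 : m * (4 * c * P.natDegree) = 4 * (c * m * P.natDegree) := by ring
        omega
      exact hMvf r C hC K hr N hN n f hcusp horth P hd hPN (c * m) hR (κ i ∘ φ)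
        (hl3 ⟨0, hn0⟩ (κ i) (c * m) (hκ i)).1 (fun j => lam j (κ i))
        (fun j => (hl3 j (κ i) (c * m) (hκ i)).2)
    have hm0 : (0 : ℝ) < m := by exact_mod_cast hm1
    have hfin : (n : ℝ) ≤ 3 ^ r * I * (c / m) := by
      calc (n : ℝ) ≤ ∑ j : Fin n, ∑ i : Fin M, ‖lam j (κ i)‖ ^ 2 := hcount
        _ = ∑ i : Fin M, ∑ j : Fin n, ‖lam j (κ i)‖ ^ 2 := Finset.sum_comm
        _ ≤ ∑ i : Fin M, 3 ^ r * I * normSq (maxK C K₂) (κ i) :=
            Finset.sum_le_sum (fun i _ => hmv i)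
        _ = 3 ^ r * I * ∑ i : Fin M, normSq (maxK C K₂) (κ i) := by rw [Finset.mul_sum]
        _ ≤ 3 ^ r * I * (c / m) := mul_le_mul_of_nonneg_left hsum (by positivity)
    calc (n * N.natDegree : ℝ) ≤ (3 ^ r * I * (c / m)) * (12 * c * P.natDegree * m) :=
          mul_le_mul hfin hND (Nat.cast_nonneg _) (by positivity)
      _ = 12 * 3 ^ r * (c : ℝ) ^ 2 * P.natDegree * I := by
          field_simp

end Pool.Agent.DEN.TMP.H27
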