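import Pool.Agent.Helper84_TMP.Stmt
import Pool.Agent.Helper29_TMP.ElimMain

/-!
# Squad TMP, module LOCF: the assembly of the local part
-/

open scoped BigOperators

namespace Pool.Agent.TMP.H27

open Pool.Agent.DEN Pool.Agent.TMP

section
variable {r : ℕ} {C : Matrix (Fin r) (Fin r) ℤ} {K : Type} [Field K]

/-- the Hecke function of a kernel -/
noncomputable def fn (k : XX C K → XX C K → ℂ) : grp C K → ℂ :=
  fun g => k (oo C K) (g • oo C K)

theorem fn_inj [Finite K] (hKer : KerStmt) (hSmu : SmuStmt) (hPln : PlnStmt) (hC : SimplyLaced C)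
    {k k' : XX C K → XX C K → ℂ} (hk : IsKer k) (hk' : IsKer k')
    (h : ∀ l, sat hC k l = sat hC k' l) : fn k = fn k' := by
  have hK := hKer r C hC K
  have hS := hSmu r C hC K
  have h1 : IsKer ((-1 : ℂ) • k') := hK.2.2.2.2.1 _ _ hk'
  have h2 : IsKer (k + (-1 : ℂ) • k') := hK.2.2.2.1 _ _ hk h1
  have h3 : ∀ l, sat hC (k + (-1 : ℂ) • k') l = 0 := by
    intro l
    rw [hS.2.2.1 _ _ hk h1, hS.2.2.2.1 _ _ hk', h l]
    ring
  have h4 := hPln r C hC K _ h2
  have h5 : ∑ᶠ l, ‖sat hC (k + (-1 : ℂ) • k') l‖ ^ 2 = (0 : ℝ) := by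
    simp only [h3, norm_zero, ne_eq, OfNat.ofNat_ne_zero, not_false_eq_true, zero_pow, finsum_zero]
  rw [h5, mul_zero] at h4
  funext g
  have h6 := single_le_finsum (f := fun y => ‖(k + (-1 : ℂ) • k') (oo C K) y‖ ^ 2) (g • oo C K)
    ((h2.fin (oo C K)).subset (by
      intro y hy
      simp only [Function.mem_support, ne_eq] at hy
      intro h0
      apply hy
      change (k + (-1 : ℂ) • k') (oo C K) y = 0 at h0
      rw [h0]
      simp)) (fun y => by positivity)
  have h7 : ‖(k + (-1 : ℂ) • k') (oo C K) (g • oo C K)‖ ^ 2 ≤ 0 := h6.trans h4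
  have h8 : (k + (-1 : ℂ) • k') (oo C K) (g • oo C K) = 0 := by
    have h9 : ‖(k + (-1 : ℂ) • k') (oo C K) (g • oo C K)‖ ^ 2 = 0 :=
      le_antisymm h7 (by positivity)
    exact norm_eq_zero.1 (pow_eq_zero_iff (two_ne_zero)|>.1 h9)
  have h10 : k (oo C K) (g • oo C K) + (-1 : ℂ) * k' (oo C K) (g • oo C K) = 0 := h8
  show k (oo C K) (g • oo C K) = k' (oo C K) (g • oo C K)
  linear_combination h10

/-- kernels of invariants -/
theorem exists_ker [Finite K] (hSur : SurStmt) (hC : SimplyLaced C) (a : invAlg C) :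
    ∃ k : XX C K → XX C K → ℂ, IsKer k ∧ ∀ l, sat hC k l = a.1.coeff l := by
  have h1 : {l | a.1.coeff l ≠ 0}.Finite := by
    have : {l | a.1.coeff l ≠ 0} = (a.1.coeff.support : Set (Fin r → ℤ)) := by
      ext l; simp
    rw [this]
    exact Finset.finite_toSet _
  have h2 : ∀ i l, a.1.coeff (sf C i l) = a.1.coeff l := by
    intro i l
    have := (mem_invAlg hC a.1).1 a.2 i l
    rw [← this]
    unfold sf
    rw [hC.ip_comm (al i) l]
  obtain ⟨k, hk, hs, -⟩ := hSur r C hC K (fun l => a.1.coeff l) h1 h2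
    (∑ l ∈ a.1.coeff.support, |ip C l l|) (by
      intro l hl
      exact (le_abs_self _).trans (Finset.single_le_sum (f := fun l => |ip C l l|)
        (fun _ _ => abs_nonneg _) (Finsupp.mem_support_iff.2 hl)))
  exact ⟨k, hk, hs⟩

/-- the coefficients of a product -/
theorem coeff_mul_sub (a b : CQ r) (l : Fin r → ℤ) :
    (a * b).coeff l = ∑ᶠ m, a.coeff m * b.coeff (l - m) := by
  classical
  rw [AddMonoidAlgebra.coeff_mul, finsum_eq_sum_of_support_subset (s := a.coeff.support)]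
  · rw [Finsupp.sum]
    apply Finset.sum_congr rfl
    intro m _
    rw [Finsupp.sum]
    have h1 : ∀ m' ∈ b.coeff.support, (if m + m' = l then a.coeff m * b.coeff m' else 0) =
        if m' = l - m then a.coeff m * b.coeff m' else 0 := by
      intro m' _
      by_cases h : m + m' = l
      · rw [if_pos h, if_pos (by rw [← h]; abel)]
      · rw [if_neg h, if_neg (by intro h'; apply h; rw [h']; abel)]
    rw [Finset.sum_congr rfl h1, Finset.sum_ite_eq']
    split_ifs with h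
    · rfl
    · rw [Finsupp.notMem_support_iff.1 h, mul_zero]
  · intro m hm
    simp only [Function.mem_support, ne_eq] at hm
    rw [Finset.mem_coe, Finsupp.mem_support_iff]
    intro h
    exact hm (by rw [h, zero_mul])

theorem psi_eq (ψ : CQ r →ₐ[ℂ] ℂ) (a : CQ r) :
    ψ a = ∑ᶠ l, a.coeff l * ψ (AddMonoidAlgebra.single l 1) := by
  classical
  rw [finsum_eq_sum_of_support_subset (s := a.coeff.support)]
  · conv_lhs => rw [← AddMonoidAlgebra.sum_coeff_single a]
    rw [Finsupp.sum, map_sum]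
    apply Finset.sum_congr rfl
    intro m _
    have : AddMonoidAlgebra.single m (a.coeff m) =
        a.coeff m • (AddMonoidAlgebra.single m (1 : ℂ) : CQ r) := by
      rw [AddMonoidAlgebra.smul_single, smul_eq_mul, mul_one]
    rw [this, map_smul, smul_eq_mul]
  · intro m hm
    simp only [Function.mem_support, ne_eq] at hm
    rw [Finset.mem_coe, Finsupp.mem_support_iff]
    intro h
    exact hm (by rw [h, zero_mul])

/-- the character of the invariants -/
theorem exists_chi [Finite K] (hKhk : KhkStmt) (hKer : KerStmt) (hSmu : SmuStmt) (hPln : PlnStmt)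
    (hSur : SurStmt) (hC : SimplyLaced C) (lam : (grp C K → ℂ) → ℂ)
    (hlam : DEN.TMP.IsChr (maxK C K) lam) :
    ∃ χ : invAlg C →ₐ[ℂ] ℂ, ∀ (a : invAlg C) (k : XX C K → XX C K → ℂ), IsKer k →
      (∀ l, sat hC k l = a.1.coeff l) → χ a = lam (fn k) := by
  have hK := hKer r C hC K
  have hS := hSmu r C hC K
  have hH := hKhk r C hC K
  choose Kr hKr1 hKr2 using fun a : invAlg C => exists_ker (K := K) hSur hC a
  have key : ∀ (a : invAlg C) (k : XX C K → XX C K → ℂ), IsKer k →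
      (∀ l, sat hC k l = a.1.coeff l) → fn (Kr a) = fn k := by
    intro a k hk h
    exact fn_inj hKer hSmu hPln hC (hKr1 a) hk (fun l => by rw [hKr2, h])
  have hHk : ∀ k : XX C K → XX C K → ℂ, IsKer k → DEN.TMP.Hk (maxK C K) (fn k) :=
    fun k hk => (hH.1 k hk).1
  have hadd : ∀ a b, lam (fn (Kr (a + b))) = lam (fn (Kr a)) + lam (fn (Kr b)) := by
    intro a b
    rw [key (a + b) (Kr a + Kr b) (hK.2.2.2.1 _ _ (hKr1 a) (hKr1 b)) (by
      intro l
      rw [hS.2.2.1 _ _ (hKr1 a) (hKr1 b), hKr2, hKr2]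
      rfl)]
    exact hlam.add _ _ (hHk _ (hKr1 a)) (hHk _ (hKr1 b))
  have hsmul : ∀ (c : ℂ) a, lam (fn (Kr (c • a))) = c * lam (fn (Kr a)) := by
    intro c a
    rw [key (c • a) (c • Kr a) (hK.2.2.2.2.1 _ _ (hKr1 a)) (by
      intro l
      rw [hS.2.2.2.1 _ _ (hKr1 a), hKr2]
      rfl)]
    exact hlam.smul _ _ (hHk _ (hKr1 a))
  have hone : lam (fn (Kr 1)) = 1 := by
    rw [key 1 kone hK.2.2.2.2.2.1 (by
      intro l
      by_cases hl : l = 0
      · rw [hl, hS.2.2.2.2.1]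
        show (1 : ℂ) = (1 : CQ r).coeff 0
        rw [AddMonoidAlgebra.coeff_one_zero]
      · rw [hS.2.2.2.2.2.1 l hl]
        show (0 : ℂ) = (1 : CQ r).coeff l
        rw [AddMonoidAlgebra.one_def, AddMonoidAlgebra.coeff_single, Finsupp.single_apply,
          if_neg (Ne.symm hl)])]
    rw [← hlam.one, hH.2.2.1]
    rfl
  have hmul : ∀ a b, lam (fn (Kr (a * b))) = lam (fn (Kr a)) * lam (fn (Kr b)) := by
    intro a b
    rw [key (a * b) (kmul (Kr a) (Kr b)) (hK.2.1 _ _ (hKr1 a) (hKr1 b)) (by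
      intro l
      rw [hS.2.1 _ _ (hKr1 a) (hKr1 b)]
      show _ = (a.1 * b.1).coeff l
      rw [coeff_mul_sub]
      apply finsum_congr
      intro m
      rw [hKr2, hKr2])]
    rw [← hlam.mul _ _ (hHk _ (hKr1 a)) (hHk _ (hKr1 b))]
    exact congrArg lam (hH.2.1 (Kr a) (Kr b) (hKr1 a) (hKr1 b)).symm
  have hzero : lam (fn (Kr 0)) = 0 := by
    have := hsmul 0 0
    rw [zero_smul, zero_mul] at this
    exact this
  refine ⟨{ toFun := fun a => lam (fn (Kr a))
            map_one' := hone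
            map_mul' := hmul
            map_zero' := hzero
            map_add' := hadd
            commutes' := ?_ }, ?_⟩
  · intro c
    show lam (fn (Kr (algebraMap ℂ (invAlg C) c))) = c
    rw [Algebra.algebraMap_eq_smul_one, hsmul, hone, mul_one]
  · intro a k hk h
    show lam (fn (Kr a)) = lam (fn k)
    rw [key a k hk h]

/-- the radius -/
theorem hecke_radius (hRad : RadStmt) (hC : SimplyLaced C) {k : XX C K → XX C K → ℂ}
    (hHk : DEN.TMP.Hk (maxK C K) (fn k)) (M : ℤ) (ρ : ℕ) (hρ : 2 * M ≤ (ρ : ℤ) ^ 2)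
    (hk : ∀ y, k (oo C K) y ≠ 0 → ∃ g ∈ maxK C K, ∃ l : Fin r → ℤ, ip C l l ≤ M ∧
      y = g • tp hC K l) : HeckeInf (fn k) ρ := by
  have hB := H22.hBdg r C hC K
  refine ⟨hHk.1, hHk.2, ?_⟩
  intro g hg
  obtain ⟨h, hh, l, hl, hgl⟩ := hk _ hg
  obtain ⟨b1, b2⟩ := hRad r C hC K l ρ (by linarith) h hh
  have e1 : (h * tg hC K l)⁻¹ * g ∈ maxK C K := by
    rw [mem_maxK_iff, mul_smul, hgl, ← tp_smul hC l, ← mul_smul h, inv_smul_smul]
  obtain ⟨c1, c2⟩ := (hB.2.2 _).1 e1
  have d1 : bnd (ρ : ℤ) g := by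
    have := hB.2.1 _ _ _ _ b1 c1
    rwa [add_zero, mul_inv_cancel_left] at this
  have d2 : bnd (ρ : ℤ) g⁻¹ := by
    have := hB.2.1 _ _ _ _ c2 b2
    rwa [zero_add, ← mul_inv_rev, mul_inv_cancel_left] at this
  intro v hv
  exact ⟨d1 v hv, d2 v hv⟩

/-- bound of the norm -/
theorem ip_le (l : Fin r → ℤ) (N : ℕ) (hl : ∀ i, |l i| ≤ N) :
    ip C l l ≤ ((∑ i, ∑ j, (C i j).natAbs : ℕ) : ℤ) * (N : ℤ) ^ 2 := by
  unfold ip
  push_cast
  rw [Finset.sum_mul]
  apply Finset.sum_le_sum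
  intro i _
  rw [Finset.sum_mul]
  apply Finset.sum_le_sum
  intro j _
  calc l i * C i j * l j ≤ |l i * C i j * l j| := le_abs_self _
    _ = |C i j| * (|l i| * |l j|) := by rw [abs_mul, abs_mul]; ring
    _ ≤ |C i j| * ((N : ℤ) ^ 2) := by
        apply mul_le_mul_of_nonneg_left _ (abs_nonneg _)
        rw [pow_two]
        exact mul_le_mul (hl i) (hl j) (abs_nonneg _) (Int.natCast_nonneg N)

end

/-- LOCF -/
theorem locf (hKer : KerStmt) (hKhk : KhkStmt) (hRad : RadStmt) (hWin : WinStmt) (hSmu : SmuStmt)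
    (hPln : PlnStmt) (hFla : FlaStmt) (hSur : SurStmt) : DEN.TMP.LocfStmt := by
  classical
  intro r C hC
  obtain ⟨c₀, hc₀⟩ := H29.elim r C hC
  set B : ℕ := ∑ i, ∑ j, (C i j).natAbs with hB
  set W : ℕ := 2 ^ Nat.card (Rt C) with hW
  refine ⟨W * c₀ + 2 * (B + 1) * c₀ + 1, by omega, ?_⟩
  intro K _ _ n hn
  obtain ⟨L, p, hp1, hp2, hp3⟩ := hc₀ n hn
  have hK := hKer r C hC K
  have hS := hSmu r C hC K
  have hH := hKhk r C hC K
  -- the kernels
  have hex : ∀ i : Fin L, ∃ k : XX C K → XX C K → ℂ, IsKer k ∧ (∀ l, sat hC k l = (p i).1.coeff l) ∧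
      ∀ y, k (oo C K) y ≠ 0 → ∃ g ∈ maxK C K, ∃ l : Fin r → ℤ,
        ip C l l ≤ (B : ℤ) * ((c₀ * n : ℕ) : ℤ) ^ 2 ∧ y = g • tp hC K l := by
    intro i
    have h1 : {l | (p i).1.coeff l ≠ 0}.Finite := by
      have : {l | (p i).1.coeff l ≠ 0} = ((p i).1.coeff.support : Set (Fin r → ℤ)) := by
        ext l; simp
      rw [this]
      exact Finset.finite_toSet _
    have h2 : ∀ j l, (p i).1.coeff (sf C j l) = (p i).1.coeff l := by
      intro j l
      have := (mem_invAlg hC (p i).1).1 (p i).2 j l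
      rw [← this]
      unfold sf
      rw [hC.ip_comm (al j) l]
    refine hSur r C hC K (fun l => (p i).1.coeff l) h1 h2 _ ?_
    intro l hl
    apply ip_le
    intro j
    have := hp1 i l hl j
    push_cast
    exact this
  choose k hk1 hk2 hk3 using hex
  refine ⟨L, fun i => fn (k i), ?_, ?_, ?_⟩
  · intro i
    have hn1 : (1 : ℤ) ≤ n := by exact_mod_cast hn
    apply hecke_radius hRad hC (hH.1 _ (hk1 i)).1 _ _ _ (hk3 i)
    have hB0 : (0 : ℤ) ≤ B := Int.natCast_nonneg _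
    have hW0 : (0 : ℤ) ≤ W := Int.natCast_nonneg _
    have hc0 : (0 : ℤ) ≤ c₀ := Int.natCast_nonneg _
    have hx : (0 : ℤ) ≤ ((c₀ : ℤ) * n) ^ 2 := by positivity
    have h1 : 2 * ((B : ℤ) * ((c₀ * n : ℕ) : ℤ) ^ 2) ≤ (2 * ((B : ℤ) + 1) * c₀ * n) ^ 2 := by
      push_cast
      nlinarith
    have h2 : (2 * ((B : ℤ) + 1) * c₀ * n) ^ 2 ≤
        (((W * c₀ + 2 * (B + 1) * c₀ + 1) * n : ℕ) : ℤ) ^ 2 := by
      apply pow_le_pow_left₀ (by positivity)
      push_cast
      apply mul_le_mul_of_nonneg_right _ (by positivity)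
      have : (0 : ℤ) ≤ W * c₀ := by positivity
      linarith
    exact h1.trans h2
  · have h1 : ∀ i, normSq (maxK C K) (fn (k i)) ≤
        W * ∑ μ ∈ (p i).1.coeff.support, ‖(p i).1.coeff μ‖ ^ 2 := by
      intro i
      have h2 := hPln r C hC K _ (hk1 i)
      have h3 : ∑ᶠ l, ‖sat hC (k i) l‖ ^ 2 =
          ∑ μ ∈ (p i).1.coeff.support, ‖(p i).1.coeff μ‖ ^ 2 := by
        rw [finsum_eq_sum_of_support_subset (s := (p i).1.coeff.support)]
        · apply Finset.sum_congr rfl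
          intro l _
          rw [hk2]
        · intro m hm
          simp only [Function.mem_support, ne_eq] at hm
          rw [Finset.mem_coe, Finsupp.mem_support_iff]
          intro h
          exact hm (by rw [hk2, h]; simp)
      rw [h3] at h2
      have h4 := (hH.1 _ (hk1 i)).2.2.1
      have h5 : normSq (maxK C K) (fn (k i)) = ∑ᶠ y, ‖k i (oo C K) y‖ ^ 2 := h4
      rw [h5, hW]
      push_cast
      exact h2
    calc ∑ i, normSq (maxK C K) (fn (k i)) ≤
          ∑ i, W * ∑ μ ∈ (p i).1.coeff.support, ‖(p i).1.coeff μ‖ ^ 2 :=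
            Finset.sum_le_sum (fun i _ => h1 i)
      _ = W * ∑ i, ∑ μ ∈ (p i).1.coeff.support, ‖(p i).1.coeff μ‖ ^ 2 := by
          rw [Finset.mul_sum]
      _ ≤ W * (c₀ / n) := mul_le_mul_of_nonneg_left hp2 (Nat.cast_nonneg _)
      _ ≤ ((W * c₀ + 2 * (B + 1) * c₀ + 1 : ℕ) : ℝ) / n := by
          rw [← mul_div_assoc]
          apply div_le_div_of_nonneg_right _ (Nat.cast_nonneg _)
          push_cast
          have : (0 : ℝ) ≤ 2 * (B + 1) * c₀ := by positivity
          linarith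
  · intro lam hl1 hl2 hl3
    obtain ⟨χ, hχ⟩ := exists_chi hKhk hKer hSmu hPln hSur hC lam hl1
    rcases hp3 χ (by
      intro a b hab
      obtain ⟨ka, ha1, ha2⟩ := exists_ker (K := K) hSur hC a
      have h1 := hK.2.2.1 _ ha1
      rw [hχ a ka ha1 ha2, hχ b (kst ka) h1 (by
        intro l
        rw [(hFla r C hC K _ ha1).1 l, ha2, hab])]
      have h2 := hl2 (fn ka) (hH.1 _ ha1).1
      rw [← h2]
      exact congrArg lam (hH.1 _ ha1).2.2.2.symm) with ⟨ψ, hψ1, hψ2⟩ | ⟨i, hi⟩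
    · exfalso
      apply hl3
      intro κ τ hτ hκ hN
      obtain ⟨k', hk', hκk, hkn⟩ := hH.2.2.2 κ hκ
      have hfin := hS.1 _ hk'
      let a : CQ r := AddMonoidAlgebra.ofCoeff (Finsupp.ofSupportFinite (sat hC k') hfin)
      have ha : a ∈ invAlg C := by
        rw [mem_invAlg hC]
        intro i μ
        have := hWin r C hC K k' hk' i μ
        unfold sf at this
        rw [hC.ip_comm (al i) μ] at this
        exact this
      have h1 : χ ⟨a, ha⟩ = lam (fn k') := hχ ⟨a, ha⟩ k' hk' (fun l => rfl)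
      have h2 : κ = fn k' := funext hκk
      rw [h2, ← h1, ← hψ1, psi_eq]
      exact (hFla r C hC K _ hk').2 τ hτ (hkn τ hN) (fun l => ψ (AddMonoidAlgebra.single l 1))
        (by
          intro l m
          rw [← map_mul, AddMonoidAlgebra.single_mul_single, mul_one]) hψ2
    · refine ⟨i, ?_⟩
      rw [← hχ (p i) (k i) (hk1 i) (hk2 i)]
      exact hi

end Pool.Agent.TMP.H27
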